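import Pool.Agent.Run7.h314.LJ.Iface
import Pool.Agent.N696.LI.P_HESS

/-!
# MP_e3ee0c_gt, piece FIS
-/

set_option autoImplicit false

namespace Pool.Agent.Run7.h324.LJ

open Pool.Agent.Run7.h314.LJ Pool.Agent.N696.LI MvPolynomial

variable {m : ℕ}

/-- the Fischer product -/
noncomputable def FP (p q : MvPolynomial (Fin m) ℝ) : ℝ :=
  ∑ α ∈ p.support, (∏ i, (α i).factorial : ℕ) * coeff α p * coeff α q

theorem FP_eq (p q : MvPolynomial (Fin m) ℝ) (s : Finset (Fin m →₀ ℕ)) (hs : p.support ⊆ s) :
    FP p q = ∑ α ∈ s, (∏ i, (α i).factorial : ℕ) * coeff α p * coeff α q := by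
  unfold FP
  apply Finset.sum_subset hs
  intro α _ hα
  rw [notMem_support_iff.1 hα, mul_zero, zero_mul]

theorem FP_comm (p q : MvPolynomial (Fin m) ℝ) : FP p q = FP q p := by
  classical
  rw [FP_eq p q (p.support ∪ q.support) Finset.subset_union_left,
    FP_eq q p (p.support ∪ q.support) Finset.subset_union_right]
  apply Finset.sum_congr rfl
  intro α _
  ring

theorem FP_add_right (p q r : MvPolynomial (Fin m) ℝ) : FP p (q + r) = FP p q + FP p r := by
  unfold FP
  rw [← Finset.sum_add_distrib]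
  apply Finset.sum_congr rfl
  intro α _
  rw [coeff_add]
  ring

theorem FP_C_mul_right (p q : MvPolynomial (Fin m) ℝ) (c : ℝ) :
    FP p (C c * q) = c * FP p q := by
  unfold FP
  rw [Finset.mul_sum]
  apply Finset.sum_congr rfl
  intro α _
  rw [coeff_C_mul]
  ring

theorem FP_zero_right (p : MvPolynomial (Fin m) ℝ) : FP p 0 = 0 := by
  unfold FP
  simp

theorem FP_sum_right {κ : Type} (s : Finset κ) (p : MvPolynomial (Fin m) ℝ)
    (f : κ → MvPolynomial (Fin m) ℝ) : FP p (∑ k ∈ s, f k) = ∑ k ∈ s, FP p (f k) := by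
  classical
  induction s using Finset.induction_on with
  | empty => simp [FP_zero_right]
  | insert a s ha ih => rw [Finset.sum_insert ha, Finset.sum_insert ha, FP_add_right, ih]

theorem FP_sum_left {κ : Type} (s : Finset κ) (p : MvPolynomial (Fin m) ℝ)
    (f : κ → MvPolynomial (Fin m) ℝ) : FP (∑ k ∈ s, f k) p = ∑ k ∈ s, FP (f k) p := by
  rw [FP_comm, FP_sum_right]
  exact Finset.sum_congr rfl fun k _ => FP_comm _ _

theorem FP_C_mul_left (p q : MvPolynomial (Fin m) ℝ) (c : ℝ) :
    FP (C c * p) q = c * FP p q := by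
  rw [FP_comm, FP_C_mul_right, FP_comm]

theorem FP_self_nonneg (p : MvPolynomial (Fin m) ℝ) : 0 ≤ FP p p := by
  unfold FP
  apply Finset.sum_nonneg
  intro α _
  have : (0 : ℝ) ≤ (∏ i, (α i).factorial : ℕ) := Nat.cast_nonneg _
  rw [mul_assoc]
  exact mul_nonneg this (mul_self_nonneg _)

theorem FP_self_eq_zero (p : MvPolynomial (Fin m) ℝ) (h : FP p p = 0) : p = 0 := by
  by_contra hp
  have hpos : 0 < FP p p := by
    unfold FP
    apply Finset.sum_pos
    · intro α hα
      have h1 : (0 : ℝ) < (∏ i, (α i).factorial : ℕ) := by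
        exact_mod_cast Finset.prod_pos fun i _ => Nat.factorial_pos _
      rw [mul_assoc]
      exact mul_pos h1 (mul_self_pos.2 (mem_support_iff.1 hα))
    · exact Finset.nonempty_iff_ne_empty.2 (fun h0 => hp (support_eq_empty.1 h0))
  exact absurd h hpos.ne'

theorem FP_mul_X (p q : MvPolynomial (Fin m) ℝ) (k : Fin m) :
    FP (p * X k) q = FP p (pderiv k q) := by
  classical
  rw [FP_eq (p * X k) q (p.support.map (addRightEmbedding (Finsupp.single k 1)))
    (by rw [support_mul_X])]
  unfold FP
  rw [Finset.sum_map]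
  apply Finset.sum_congr rfl
  intro α _
  simp only [addRightEmbedding_apply]
  rw [coeff_mul_X, coeff_pderiv]
  have h1 : (∏ i, ((α + Finsupp.single k 1 : Fin m →₀ ℕ) i).factorial) =
      (∏ i, (α i).factorial) * (α k + 1) := by
    have h2 : ∀ i, ((α + Finsupp.single k 1 : Fin m →₀ ℕ) i).factorial =
        (α i).factorial * (if i = k then α k + 1 else 1) := by
      intro i
      by_cases hi : i = k
      · subst hi
        simp [Nat.factorial_succ, mul_comm]
      · simp [hi]
    rw [Finset.prod_congr rfl fun i _ => h2 i, Finset.prod_mul_distrib,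
      Finset.prod_ite_eq' Finset.univ k, if_pos (Finset.mem_univ k)]
  rw [h1]
  push_cast
  ring

/-- the vector field of a matrix, acting on polynomials -/
noncomputable def Df (N : Mat m) (q : MvPolynomial (Fin m) ℝ) : MvPolynomial (Fin m) ℝ :=
  ∑ j, ∑ k, C (N j k) * (pderiv j q * X k)

theorem Df_adj (N : Mat m) (p q : MvPolynomial (Fin m) ℝ) :
    FP (Df N p) q = FP p (Df N.transpose q) := by
  unfold Df
  rw [FP_sum_left]
  simp only [FP_sum_left, FP_sum_right, FP_C_mul_left, FP_C_mul_right, FP_mul_X,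
    Matrix.transpose_apply]
  rw [Finset.sum_comm]
  apply Finset.sum_congr rfl
  intro k _
  apply Finset.sum_congr rfl
  intro j _
  congr 1
  rw [FP_comm, ← FP_mul_X, FP_comm]

theorem Df_zero_mat (q : MvPolynomial (Fin m) ℝ) : Df (0 : Mat m) q = 0 := by
  simp [Df]

theorem Df_zero (N : Mat m) : Df N (0 : MvPolynomial (Fin m) ℝ) = 0 := by
  simp [Df]

theorem Df_add_mat (M N : Mat m) (q : MvPolynomial (Fin m) ℝ) :
    Df (M + N) q = Df M q + Df N q := by
  simp only [Df, Matrix.add_apply, map_add, add_mul, Finset.sum_add_distrib]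

theorem Df_smul_mat (c : ℝ) (N : Mat m) (q : MvPolynomial (Fin m) ℝ) :
    Df (c • N) q = C c * Df N q := by
  simp only [Df, Matrix.smul_apply, smul_eq_mul, map_mul, Finset.mul_sum, mul_assoc]

theorem Df_sum_mat {κ : Type} (s : Finset κ) (N : κ → Mat m) (q : MvPolynomial (Fin m) ℝ) :
    Df (∑ i ∈ s, N i) q = ∑ i ∈ s, Df (N i) q := by
  classical
  induction s using Finset.induction_on with
  | empty => simp [Df_zero_mat]
  | insert a s ha ih => rw [Finset.sum_insert ha, Finset.sum_insert ha, Df_add_mat, ih]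

theorem Df_add (N : Mat m) (p q : MvPolynomial (Fin m) ℝ) :
    Df N (p + q) = Df N p + Df N q := by
  simp only [Df, map_add, add_mul, mul_add, Finset.sum_add_distrib]

theorem Df_C (N : Mat m) (a : ℝ) : Df N (C a) = 0 := by
  simp [Df]

theorem Df_mul (N : Mat m) (p q : MvPolynomial (Fin m) ℝ) :
    Df N (p * q) = p * Df N q + q * Df N p := by
  simp only [Df, Derivation.leibniz, smul_eq_mul, Finset.mul_sum]
  rw [← Finset.sum_add_distrib]
  apply Finset.sum_congr rfl
  intro j _
  rw [← Finset.sum_add_distrib]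
  apply Finset.sum_congr rfl
  intro k _
  ring

theorem Df_X (N : Mat m) (j : Fin m) :
    Df N (X j) = ∑ k, C (N j k) * X k := by
  classical
  unfold Df
  rw [Finset.sum_eq_single j]
  · simp
  · intro i _ hi
    apply Finset.sum_eq_zero
    intro k _
    rw [pderiv_X_of_ne (Ne.symm hi), zero_mul, mul_zero]
  · intro h
    exact absurd (Finset.mem_univ j) h

theorem Df_sum {κ : Type} (s : Finset κ) (N : Mat m) (f : κ → MvPolynomial (Fin m) ℝ) :
    Df N (∑ i ∈ s, f i) = ∑ i ∈ s, Df N (f i) := by
  classical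
  induction s using Finset.induction_on with
  | empty => simp [Df_zero]
  | insert a s ha ih => rw [Finset.sum_insert ha, Finset.sum_insert ha, Df_add, ih]

theorem Df_C_mul (N : Mat m) (a : ℝ) (q : MvPolynomial (Fin m) ℝ) :
    Df N (C a * q) = C a * Df N q := by
  rw [Df_mul, Df_C, mul_zero, add_zero]

/-- commutator -/
theorem Df_comm (M N : Mat m) (q : MvPolynomial (Fin m) ℝ) :
    Df M (Df N q) - Df N (Df M q) = Df (N * M - M * N) q := by
  induction q using MvPolynomial.induction_on with
  | C a => simp [Df_C, Df_zero]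
  | add p q hp hq =>
    rw [Df_add, Df_add, Df_add, Df_add, Df_add, ← hp, ← hq]
    ring
  | mul_X p j hp =>
    rw [Df_mul N, Df_mul M, Df_mul (N * M - M * N), ← hp]
    rw [Df_add M, Df_add N, Df_mul M, Df_mul M, Df_mul N, Df_mul N]
    have h1 : Df M (Df N (X j)) - Df N (Df M (X j)) = Df (N * M - M * N) (X j) := by
      simp only [Df_X, Df_sum, Df_C_mul]
      have h2 : ∀ A B : Mat m, (∑ k, C (A j k) * ∑ l, C (B k l) * (X l : MvPolynomial (Fin m) ℝ)) =
          ∑ l, C ((A * B) j l) * X l := by
        intro A B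
        simp only [Finset.mul_sum]
        rw [Finset.sum_comm]
        apply Finset.sum_congr rfl
        intro l _
        rw [Matrix.mul_apply, map_sum, Finset.sum_mul]
        apply Finset.sum_congr rfl
        intro k _
        rw [map_mul]
        ring
      rw [h2, h2, ← Finset.sum_sub_distrib]
      apply Finset.sum_congr rfl
      intro l _
      rw [Matrix.sub_apply, map_sub]
      ring
    linear_combination p * h1

/-- the case of the standard metric -/
theorem fis_one {n : ℕ} (N : Fin n → Mat m)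
    (hN : ∑ i, (N i * (N i).transpose - (N i).transpose * N i) = 0)
    (q : MvPolynomial (Fin m) ℝ) (hq : ∀ i, Df (N i) q = 0) (i : Fin n) :
    Df (N i).transpose q = 0 := by
  have h1 : ∀ i, FP (Df (N i).transpose q) (Df (N i).transpose q) =
      FP q (Df ((N i).transpose * N i - N i * (N i).transpose) q) := by
    intro i
    rw [Df_adj, Matrix.transpose_transpose, ← Df_comm, hq, Df_zero, sub_zero]
  have h2 : ∑ i, FP (Df (N i).transpose q) (Df (N i).transpose q) = 0 := by
    simp only [h1]
    rw [← FP_sum_right, ← Df_sum_mat]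
    have : ∑ i, ((N i).transpose * N i - N i * (N i).transpose) = 0 := by
      rw [← neg_eq_zero, ← Finset.sum_neg_distrib, ← hN]
      exact Finset.sum_congr rfl fun i _ => neg_sub _ _
    rw [this, Df_zero_mat, FP_zero_right]
  have h3 := (Finset.sum_eq_zero_iff_of_nonneg (fun i _ => FP_self_nonneg _)).1 h2 i
    (Finset.mem_univ i)
  exact FP_self_eq_zero _ h3

/-- linear substitution -/
noncomputable def Sb (A : Mat m) : MvPolynomial (Fin m) ℝ →ₐ[ℝ] MvPolynomial (Fin m) ℝ :=
  aeval fun j => ∑ k, C (A j k) * X k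

theorem Sb_X (A : Mat m) (j : Fin m) : Sb A (X j) = ∑ k, C (A j k) * X k := by
  simp [Sb]

theorem Sb_C (A : Mat m) (a : ℝ) : Sb A (C a) = C a := by
  rw [← algebraMap_eq, AlgHom.commutes]

theorem Sb_eval (A : Mat m) (q : MvPolynomial (Fin m) ℝ) (ν : Fin m → ℝ) :
    eval ν (Sb A q) = eval (A.mulVec ν) q := by
  induction q using MvPolynomial.induction_on with
  | C a => rw [Sb_C, eval_C, eval_C]
  | add p q hp hq => rw [map_add, map_add, map_add, hp, hq]
  | mul_X p j hp =>
    rw [map_mul, map_mul, map_mul, hp, Sb_X, eval_X, map_sum]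
    simp only [map_mul, eval_C, eval_X]
    rfl

theorem Sb_injective (A : Mat m) (hA : IsUnit A.det) (q : MvPolynomial (Fin m) ℝ)
    (h : Sb A q = 0) : q = 0 := by
  apply MvPolynomial.funext
  intro ν
  have h1 := Sb_eval A q (A⁻¹.mulVec ν)
  rw [h, map_zero, Matrix.mulVec_mulVec, Matrix.mul_nonsing_inv A hA, Matrix.one_mulVec] at h1
  rw [← h1, map_zero]

theorem Sb_Df (A M N : Mat m) (h : M * A = A * N) (q : MvPolynomial (Fin m) ℝ) :
    Sb A (Df M q) = Df N (Sb A q) := by
  induction q using MvPolynomial.induction_on with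
  | C a => rw [Df_C, Sb_C, Df_C, map_zero]
  | add p q hp hq => rw [Df_add, map_add, map_add, Df_add, hp, hq]
  | mul_X p j hp =>
    rw [Df_mul, map_add, map_mul, map_mul, map_mul, Df_mul, hp]
    have h1 : Sb A (Df M (X j)) = Df N (Sb A (X j)) := by
      rw [Df_X, Sb_X, map_sum, Df_sum]
      simp only [map_mul, Sb_C, Sb_X, Df_C_mul, Df_X]
      have h2 : ∀ A B : Mat m, (∑ k, C (A j k) * ∑ l, C (B k l) * (X l : MvPolynomial (Fin m) ℝ)) =
          ∑ l, C ((A * B) j l) * X l := by
        intro A B
        simp only [Finset.mul_sum]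
        rw [Finset.sum_comm]
        apply Finset.sum_congr rfl
        intro l _
        rw [Matrix.mul_apply, map_sum, Finset.sum_mul]
        apply Finset.sum_congr rfl
        intro k _
        rw [map_mul]
        ring
      rw [h2, h2, h]
    rw [h1]

theorem eval_Df (N : Mat m) (q : MvPolynomial (Fin m) ℝ) (η : Fin m → ℝ) :
    eval η (Df N q) = ∑ i, N.mulVec η i * eval η (pderiv i q) := by
  simp only [Df, map_sum, map_mul, eval_C, eval_X]
  apply Finset.sum_congr rfl
  intro i _
  simp only [Matrix.mulVec, dotProduct]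
  rw [Finset.sum_mul]
  apply Finset.sum_congr rfl
  intro k _
  ring

/-- infinitesimal invariance implies invariance -/
theorem inv_of_Df (M : Mat m) (q : MvPolynomial (Fin m) ℝ) (h : Df M q = 0) (η : Fin m → ℝ) :
    eval ((NormedSpace.exp M).mulVec η) q = eval η q := by
  let g : ℝ → ℝ := fun t => eval ((NormedSpace.exp (t • M)).mulVec η) q
  have hexp : ∀ s t : ℝ, NormedSpace.exp ((t + s) • M) =
      NormedSpace.exp (s • M) * NormedSpace.exp (t • M) := by
    intro s t
    rw [add_comm, add_smul]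
    apply Matrix.exp_add_of_commute
    exact (Commute.refl M).smul_left s |>.smul_right t
  have hg : ∀ t, HasDerivAt g 0 t := by
    intro t
    have h1 := Pool.Agent.N696.LI.Hess.hasDerivAt_eval q
      (fun s => (NormedSpace.exp (s • M)).mulVec ((NormedSpace.exp (t • M)).mulVec η))
      (M.mulVec ((NormedSpace.exp (t • M)).mulVec η)) 0
      (fun i => Pool.Agent.N696.LI.Hess.exp_mulVec M _ i)
    have h2 : (fun s : ℝ => eval ((NormedSpace.exp (s • M)).mulVec
        ((NormedSpace.exp (t • M)).mulVec η)) q) = fun s => g (t + s) := by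
      funext s
      simp only [g]
      rw [hexp, Matrix.mulVec_mulVec]
    rw [h2, zero_smul, NormedSpace.exp_zero, Matrix.one_mulVec, ← eval_Df, h, map_zero] at h1
    have h3 := HasDerivAt.comp_sub_const (f := fun s => g (t + s)) (f' := 0) t t
      (by rw [sub_self]; exact h1)
    simpa using h3
  have h4 := is_const_of_deriv_eq_zero (fun t => (hg t).differentiableAt)
    (fun t => (hg t).deriv) 1 0
  simp only [g, one_smul, zero_smul, NormedSpace.exp_zero, Matrix.one_mulVec] at h4
  exact h4

open scoped MatrixOrder in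
theorem exists_sq (P : Mat m) (hP : P.PosDef) : ∃ B : Mat m, P = B.transpose * B := by
  obtain ⟨B, hB⟩ := CStarAlgebra.nonneg_iff_eq_star_mul_self.mp hP.posSemidef.nonneg
  refine ⟨B, ?_⟩
  rw [hB, Matrix.star_eq_conjTranspose, Matrix.conjTranspose_eq_transpose_of_trivial]

theorem main_FIS : S_fis := by
  intro m n X P hP hX Q hQ
  -- infinitesimal invariance
  have hDX : ∀ i, Df (X i) Q = 0 := by
    intro i
    apply MvPolynomial.funext
    intro η
    rw [eval_Df, map_zero]
    apply Pool.Agent.N696.LI.Hess.inf_inv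
    intro t ν
    have hu : IsUnit (NormedSpace.exp (t • X i)) := Matrix.isUnit_exp _
    have hmem : hu.unit ∈ eg X := by
      apply Subgroup.subset_closure
      refine ⟨Pi.single i t, ?_⟩
      rw [IsUnit.unit_spec]
      congr 1
      unfold lc
      rw [Finset.sum_eq_single i]
      · rw [Pi.single_eq_same]
      · intro j _ hj
        rw [Pi.single_eq_of_ne hj, zero_smul]
      · intro h
        exact absurd (Finset.mem_univ i) h
    have := hQ _ hmem ν
    rw [IsUnit.unit_spec] at this
    exact this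
  -- square root of P
  obtain ⟨A, hAu, hA⟩ : ∃ A : Mat m, IsUnit A.det ∧ P = A * A.transpose := by
    obtain ⟨B, hB⟩ := exists_sq P hP
    refine ⟨B.transpose, ?_, ?_⟩
    · rw [Matrix.det_transpose]
      have h1 : IsUnit P.det := (Matrix.isUnit_iff_isUnit_det P).1 hP.isUnit
      rw [hB, Matrix.det_mul] at h1
      exact isUnit_of_mul_isUnit_right h1
    · rw [Matrix.transpose_transpose, hB]
  have hA1 : A * A⁻¹ = 1 := Matrix.mul_nonsing_inv A hAu
  have hA2 : A⁻¹ * A = 1 := Matrix.nonsing_inv_mul A hAu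
  have hPu : IsUnit P.det := by
    rw [hA, Matrix.det_mul, Matrix.det_transpose]
    exact hAu.mul hAu
  have hP1 : P * P⁻¹ = 1 := Matrix.mul_nonsing_inv P hPu
  have hP2 : P⁻¹ * P = 1 := Matrix.nonsing_inv_mul P hPu
  have hAt : A.transpose * P⁻¹ = A⁻¹ := by
    calc A.transpose * P⁻¹ = A⁻¹ * (A * A.transpose) * P⁻¹ := by
          rw [← mul_assoc, hA2, one_mul]
      _ = A⁻¹ := by rw [← hA, mul_assoc, hP1, mul_one]
  let N : Fin n → Mat m := fun i => A⁻¹ * X i * A
  have hNt : ∀ i, P * (X i).transpose * P⁻¹ = A * (N i).transpose * A⁻¹ := by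
    intro i
    simp only [N]
    rw [Matrix.transpose_mul, Matrix.transpose_mul, ← hAt]
    have h1 : A⁻¹.transpose * (A.transpose * P⁻¹) = P⁻¹ := by
      rw [← mul_assoc, ← Matrix.transpose_mul, hA1, Matrix.transpose_one, one_mul]
    calc P * (X i).transpose * P⁻¹
        = A * A.transpose * (X i).transpose * P⁻¹ := by rw [← hA]
      _ = A * A.transpose * (X i).transpose * ((A⁻¹).transpose * (A.transpose * P⁻¹)) := by
          rw [h1]
      _ = _ := by
          rw [hAt]
          simp only [mul_assoc]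
  have hXN : ∀ i, X i = A * N i * A⁻¹ := by
    intro i
    simp only [N]
    calc X i = (A * A⁻¹) * X i * (A * A⁻¹) := by rw [hA1, one_mul, mul_one]
      _ = _ := by simp only [mul_assoc]
  have hharm : ∑ i, (N i * (N i).transpose - (N i).transpose * N i) = 0 := by
    have h1 : ∀ i, X i * (P * (X i).transpose * P⁻¹) - (P * (X i).transpose * P⁻¹) * X i =
        A * (N i * (N i).transpose - (N i).transpose * N i) * A⁻¹ := by
      intro i
      rw [hNt, hXN i]
      have h2 : ∀ B C' : Mat m, A * B * A⁻¹ * (A * C' * A⁻¹) = A * (B * C') * A⁻¹ := by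
        intro B C'
        calc A * B * A⁻¹ * (A * C' * A⁻¹) = A * B * (A⁻¹ * A) * C' * A⁻¹ := by
              simp only [mul_assoc]
          _ = _ := by rw [hA2, mul_one]; simp only [mul_assoc]
      rw [h2, h2, mul_sub, sub_mul]
    rw [Finset.sum_congr rfl fun i _ => h1 i, ← Finset.sum_mul, ← Finset.mul_sum] at hX
    calc ∑ i, (N i * (N i).transpose - (N i).transpose * N i)
        = A⁻¹ * (A * (∑ i, (N i * (N i).transpose - (N i).transpose * N i)) * A⁻¹) * A := by
          calc _ = (A⁻¹ * A) * (∑ i, (N i * (N i).transpose - (N i).transpose * N i)) *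
                (A⁻¹ * A) := by rw [hA2, one_mul, mul_one]
            _ = _ := by simp only [mul_assoc]
      _ = 0 := by rw [hX, mul_zero, zero_mul]
  have hDN : ∀ i, Df (N i) (Sb A Q) = 0 := by
    intro i
    rw [← Sb_Df A (X i) (N i), hDX, map_zero]
    rw [hXN i, mul_assoc, hA2, mul_one]
  have hDP : ∀ i, Df (P * (X i).transpose * P⁻¹) Q = 0 := by
    intro i
    apply Sb_injective A hAu
    rw [Sb_Df A _ (N i).transpose]
    · exact fis_one N hharm _ hDN i
    · rw [hNt, mul_assoc, hA2, mul_one]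
  -- all linear combinations
  have hDlc : ∀ c : Fin n → ℝ, Df (P * (lc X c).transpose * P⁻¹) Q = 0 := by
    intro c
    have h1 : P * (lc X c).transpose * P⁻¹ = ∑ i, c i • (P * (X i).transpose * P⁻¹) := by
      unfold lc
      rw [Matrix.transpose_sum, Finset.mul_sum, Finset.sum_mul]
      apply Finset.sum_congr rfl
      intro i _
      rw [Matrix.transpose_smul, mul_smul_comm, smul_mul_assoc]
    rw [h1, Df_sum_mat]
    apply Finset.sum_eq_zero
    intro i _
    rw [Df_smul_mat, hDP, mul_zero]
  have hconj : ∀ B : Mat m, NormedSpace.exp (P * B.transpose * P⁻¹) =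
      P * (NormedSpace.exp B).transpose * P⁻¹ := by
    intro B
    rw [← Matrix.exp_transpose]
    have := Matrix.exp_conj P B.transpose ((Matrix.isUnit_iff_isUnit_det P).2 hPu)
    exact this
  intro h hh
  refine Subgroup.closure_induction (p := fun (h : (Mat m)ˣ) _ => ∀ ν : Fin m → ℝ,
    eval ((P * (h : Mat m).transpose * P⁻¹).mulVec ν) Q = eval ν Q) ?_ ?_ ?_ ?_ hh
  · rintro g ⟨c, hc⟩ ν
    rw [hc, ← hconj]
    exact inv_of_Df _ Q (hDlc c) ν
  · intro ν
    rw [Units.val_one, Matrix.transpose_one, mul_one, hP1, Matrix.one_mulVec]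
  · intro g g' _ _ hg hg' ν
    have h1 : P * ((g * g' : (Mat m)ˣ) : Mat m).transpose * P⁻¹ =
        (P * (g' : Mat m).transpose * P⁻¹) * (P * (g : Mat m).transpose * P⁻¹) := by
      rw [Units.val_mul, Matrix.transpose_mul]
      calc P * ((g' : Mat m).transpose * (g : Mat m).transpose) * P⁻¹
          = P * (g' : Mat m).transpose * (P⁻¹ * P) * (g : Mat m).transpose * P⁻¹ := by
            rw [hP2, mul_one]; simp only [mul_assoc]
        _ = _ := by simp only [mul_assoc]
    rw [h1, ← Matrix.mulVec_mulVec, hg', hg]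
  · intro g _ hg ν
    have h1 : (P * (g : Mat m).transpose * P⁻¹) * (P * ((g⁻¹ : (Mat m)ˣ) : Mat m).transpose * P⁻¹)
        = 1 := by
      calc (P * (g : Mat m).transpose * P⁻¹) * (P * ((g⁻¹ : (Mat m)ˣ) : Mat m).transpose * P⁻¹)
          = P * (g : Mat m).transpose * (P⁻¹ * P) * ((g⁻¹ : (Mat m)ˣ) : Mat m).transpose * P⁻¹ := by
            simp only [mul_assoc]
        _ = P * ((g : Mat m).transpose * ((g⁻¹ : (Mat m)ˣ) : Mat m).transpose) * P⁻¹ := by
            rw [hP2, mul_one]; simp only [mul_assoc]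
        _ = 1 := by
            rw [← Matrix.transpose_mul, Units.inv_mul, Matrix.transpose_one, mul_one, hP1]
    have h2 := hg ((P * ((g⁻¹ : (Mat m)ˣ) : Mat m).transpose * P⁻¹).mulVec ν)
    rw [Matrix.mulVec_mulVec, h1, Matrix.one_mulVec] at h2
    exact h2.symm

end Pool.Agent.Run7.h324.LJ
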