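import Pool.Agent.Run7.h314.LJ.Iface

/-!
# MP_e3ee0c_gt, piece MET
-/

set_option autoImplicit false

namespace Pool.Agent.Run7.h324.LJ

open Pool.Agent.Run7.h314.LJ Pool.Agent.N696.LI Matrix

/-- `tr (B Bᵀ)` is a sum of squares -/
theorem trace_sq {ι κ : Type} [Fintype ι] [Fintype κ] (B : Matrix ι κ ℝ) :
    (B * B.transpose).trace = ∑ i, ∑ j, B i j ^ 2 := by
  simp only [Matrix.trace, Matrix.diag_apply, Matrix.mul_apply, Matrix.transpose_apply]
  exact Finset.sum_congr rfl fun i _ => Finset.sum_congr rfl fun j _ => by ring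

theorem trace_sq_nonneg {ι κ : Type} [Fintype ι] [Fintype κ] (B : Matrix ι κ ℝ) :
    0 ≤ (B * B.transpose).trace := by
  rw [trace_sq]
  positivity

theorem eq_zero_of_trace_sq {ι κ : Type} [Fintype ι] [Fintype κ] (B : Matrix ι κ ℝ)
    (h : (B * B.transpose).trace = 0) : B = 0 := by
  rw [trace_sq] at h
  ext i j
  have h1 := (Finset.sum_eq_zero_iff_of_nonneg (fun i _ =>
    Finset.sum_nonneg fun j _ => sq_nonneg (B i j))).1 h i (Finset.mem_univ i)
  have h2 := (Finset.sum_eq_zero_iff_of_nonneg (fun j _ => sq_nonneg (B i j))).1 h1 j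
    (Finset.mem_univ j)
  simpa using h2

/-- (a) the orthogonal complement of an invariant subspace of a harmonic family is invariant -/
theorem harm_compl {ι : Type} [Fintype ι] [DecidableEq ι] {n : ℕ} (K : Fin n → Matrix ι ι ℝ)
    (hK : Harm K) (Q : Matrix ι ι ℝ) (hQs : Q.transpose = Q) (hQQ : Q * Q = Q)
    (hinv : ∀ i, Q * K i * Q = K i * Q) (i : Fin n) : Q * K i * (1 - Q) = 0 := by
  have h0 : (1 - Q) * (1 - Q).transpose = 1 - Q := by
    rw [transpose_sub, transpose_one, hQs, mul_sub, mul_one, sub_mul, one_mul, hQQ, sub_self,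
      sub_zero]
  have h1 : ∀ i, ((Q * K i * (1 - Q)) * (Q * K i * (1 - Q)).transpose).trace =
      (Q * (K i * (K i).transpose - (K i).transpose * K i)).trace := by
    intro i
    have e1 : (Q * K i * (1 - Q)) * (Q * K i * (1 - Q)).transpose =
        Q * (K i * (1 - Q) * (K i).transpose) * Q := by
      rw [transpose_mul, transpose_mul, hQs]
      calc Q * K i * (1 - Q) * ((1 - Q).transpose * ((K i).transpose * Q))
          = Q * K i * ((1 - Q) * (1 - Q).transpose) * ((K i).transpose * Q) := by
            simp only [mul_assoc]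
        _ = _ := by rw [h0]; simp only [mul_assoc]
    rw [e1, trace_mul_comm, ← mul_assoc, hQQ]
    have e2 : Q * (K i * (1 - Q) * (K i).transpose) =
        Q * (K i * (K i).transpose) - (Q * K i * Q) * (K i).transpose := by
      rw [mul_sub, mul_one, sub_mul, mul_sub]
      simp only [mul_assoc]
    have e3 : (Q * ((K i).transpose * K i)).trace = ((Q * K i * Q) * (K i).transpose).trace := by
      rw [hinv]
      calc (Q * ((K i).transpose * K i)).trace = ((Q * (K i).transpose) * K i).trace := by
            rw [mul_assoc]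
        _ = (K i * (Q * (K i).transpose)).trace := trace_mul_comm _ _
        _ = _ := by rw [mul_assoc]
    rw [e2, trace_sub, mul_sub, trace_sub, e3]
  have h2 : ∑ i, ((Q * K i * (1 - Q)) * (Q * K i * (1 - Q)).transpose).trace = 0 := by
    simp only [h1]
    rw [← trace_sum, ← Finset.mul_sum]
    have : ∑ i, (K i * (K i).transpose - (K i).transpose * K i) = 0 := hK
    rw [this, mul_zero, trace_zero]
  have h3 := (Finset.sum_eq_zero_iff_of_nonneg (fun i _ => trace_sq_nonneg _)).1 h2 i
    (Finset.mem_univ i)
  exact eq_zero_of_trace_sq _ h3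

theorem main_MET : S_met := by
  intro m n X hX
  choose h hf hd K E y hK hE hy using fun j : Fin m => hX (Pi.single j 1)
  let H := Σ j, h j
  let KK : Fin n → Matrix H H ℝ := fun i => Matrix.blockDiagonal' fun j => K j i
  let EE : Matrix (Fin m) H ℝ := Matrix.of fun a p => E p.1 a p.2
  have hKK : Harm KK := by
    unfold Harm
    have h1 : ∀ i, KK i * (KK i).transpose - (KK i).transpose * KK i =
        Matrix.blockDiagonal' fun j => (K j i * (K j i).transpose - (K j i).transpose * K j i) := by
      intro i
      simp only [KK]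
      rw [Matrix.blockDiagonal'_transpose, ← Matrix.blockDiagonal'_mul,
        ← Matrix.blockDiagonal'_mul, ← Matrix.blockDiagonal'_sub]
      rfl
    simp only [h1]
    ext ⟨a, b⟩ ⟨c, d⟩
    rw [Matrix.sum_apply]
    simp only [Matrix.blockDiagonal'_apply, Matrix.zero_apply]
    by_cases hac : a = c
    · subst hac
      simp only [dif_pos, cast_eq]
      have h2 := congrFun (congrFun (hK a) b) d
      rw [Matrix.sum_apply] at h2
      simpa using h2
    · simp [hac]
  have hEE : ∀ i, EE * KK i = X i * EE := by
    intro i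
    ext a ⟨c, d⟩
    rw [Matrix.mul_apply, Matrix.mul_apply, Fintype.sum_sigma]
    simp only [EE, KK, Matrix.of_apply, Matrix.blockDiagonal'_apply]
    rw [Finset.sum_eq_single c]
    · simp only [dif_pos, cast_eq]
      have h2 := congrFun (congrFun (hE c i) a) d
      rw [Matrix.mul_apply, Matrix.mul_apply] at h2
      exact h2
    · intro j _ hj
      apply Finset.sum_eq_zero
      intro b _
      rw [dif_neg hj, mul_zero]
    · intro hc
      exact absurd (Finset.mem_univ c) hc
  have hsurj : ∀ j : Fin m, ∃ z : H → ℝ, EE.mulVec z = Pi.single j 1 := by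
    intro j
    refine ⟨fun p => if hp : p.1 = j then y j (hp ▸ p.2) else 0, ?_⟩
    rw [← hy j]
    ext a
    simp only [Matrix.mulVec, dotProduct, EE, Matrix.of_apply]
    rw [Fintype.sum_sigma, Finset.sum_eq_single j]
    · simp
    · intro k _ hk
      apply Finset.sum_eq_zero
      intro b _
      rw [dif_neg hk, mul_zero]
    · intro hc
      exact absurd (Finset.mem_univ j) hc
  let P : Mat m := EE * EE.transpose
  have hP : P.PosDef := by
    refine Matrix.PosDef.of_dotProduct_mulVec_pos ?_ ?_
    · show P.conjTranspose = P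
      rw [Matrix.conjTranspose_eq_transpose_of_trivial]
      simp only [P]
      rw [transpose_mul, transpose_transpose]
    · intro x hx
      have h1 : star x ⬝ᵥ P.mulVec x = (EE.transpose.mulVec x) ⬝ᵥ (EE.transpose.mulVec x) := by
        simp only [P, star_trivial]
        rw [← mulVec_mulVec, Matrix.dotProduct_mulVec, ← Matrix.mulVec_transpose]
      rw [h1]
      have h2 : EE.transpose.mulVec x ≠ 0 := by
        intro h0
        apply hx
        ext j
        obtain ⟨z, hz⟩ := hsurj j
        have h3 : x ⬝ᵥ (EE.mulVec z) = 0 := by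
          rw [Matrix.dotProduct_mulVec, ← Matrix.mulVec_transpose, h0, zero_dotProduct]
        rw [hz, dotProduct_single, mul_one] at h3
        exact h3
      have h3 : 0 ≤ (EE.transpose.mulVec x) ⬝ᵥ (EE.transpose.mulVec x) :=
        Finset.sum_nonneg fun i _ => mul_self_nonneg _
      refine lt_of_le_of_ne h3 (Ne.symm ?_)
      intro h4
      exact h2 (dotProduct_self_eq_zero.1 h4)
  have hdet : IsUnit P.det := (Matrix.isUnit_iff_isUnit_det P).1 hP.isUnit
  have hP1 : P * P⁻¹ = 1 := Matrix.mul_nonsing_inv P hdet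
  have hP2 : P⁻¹ * P = 1 := Matrix.nonsing_inv_mul P hdet
  have hPt : P⁻¹.transpose = P⁻¹ := by
    rw [Matrix.transpose_nonsing_inv]
    congr 1
    simp only [P]
    rw [transpose_mul, transpose_transpose]
  -- projections
  let Pi' : Matrix H H ℝ := EE.transpose * P⁻¹ * EE
  have hEPi : EE * Pi' = EE := by
    simp only [Pi']
    rw [← Matrix.mul_assoc, ← Matrix.mul_assoc]
    show P * P⁻¹ * EE = EE
    rw [hP1, Matrix.one_mul]
  have hPiPi : Pi' * Pi' = Pi' := by
    have h1 : Pi' * Pi' = (EE.transpose * P⁻¹) * (EE * Pi') := by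
      simp only [Pi']
      rw [Matrix.mul_assoc (EE.transpose * P⁻¹) EE]
    rw [h1, hEPi]
  have hPit : Pi'.transpose = Pi' := by
    simp only [Pi']
    rw [transpose_mul, transpose_mul, hPt, transpose_transpose, Matrix.mul_assoc]
  let Q : Matrix H H ℝ := 1 - Pi'
  have hQs : Q.transpose = Q := by
    simp only [Q]
    rw [transpose_sub, transpose_one, hPit]
  have hQQ : Q * Q = Q := by
    simp only [Q]
    rw [Matrix.mul_sub, Matrix.mul_one, Matrix.sub_mul, Matrix.one_mul, hPiPi, sub_self, sub_zero]
  have hEQ : EE * Q = 0 := by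
    simp only [Q]
    rw [Matrix.mul_sub, Matrix.mul_one, hEPi, sub_self]
  have hinv : ∀ i, Q * KK i * Q = KK i * Q := by
    intro i
    have h1 : Pi' * KK i * Q = 0 := by
      simp only [Pi']
      rw [Matrix.mul_assoc (EE.transpose * P⁻¹) EE, hEE, Matrix.mul_assoc,
        Matrix.mul_assoc, Matrix.mul_assoc (X i), hEQ, Matrix.mul_zero, Matrix.mul_zero,
        Matrix.mul_zero]
    have h2 : Q * KK i * Q = KK i * Q - Pi' * KK i * Q := by
      simp only [Q]
      rw [Matrix.sub_mul, Matrix.sub_mul, Matrix.one_mul]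
    rw [h2, h1, sub_zero]
  have hkey : ∀ i, EE * (KK i).transpose = (P * (X i).transpose * P⁻¹) * EE := by
    intro i
    have h1 := harm_compl KK hKK Q hQs hQQ hinv i
    have h2 : (1 - Q) * (KK i).transpose * Q = 0 := by
      have := congrArg Matrix.transpose h1
      rw [transpose_mul, transpose_mul, transpose_sub, transpose_one, hQs, transpose_zero,
        ← Matrix.mul_assoc] at this
      exact this
    have h3 : EE * (KK i).transpose * Q = 0 := by
      have h4 : EE * (1 - Q) = EE := by rw [Matrix.mul_sub, Matrix.mul_one, hEQ, sub_zero]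
      calc EE * (KK i).transpose * Q = EE * (1 - Q) * (KK i).transpose * Q := by rw [h4]
        _ = EE * ((1 - Q) * (KK i).transpose * Q) := by simp only [Matrix.mul_assoc]
        _ = 0 := by rw [h2, Matrix.mul_zero]
    have h5 : EE * (KK i).transpose = EE * (KK i).transpose * Pi' := by
      have : EE * (KK i).transpose * Q = EE * (KK i).transpose - EE * (KK i).transpose * Pi' := by
        simp only [Q]
        rw [Matrix.mul_sub, Matrix.mul_one]
      rw [h3] at this
      exact (sub_eq_zero.1 this.symm)
    rw [h5]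
    simp only [Pi']
    have h6 : EE * (KK i).transpose * EE.transpose = P * (X i).transpose := by
      have h7 := congrArg Matrix.transpose (hEE i)
      rw [transpose_mul, transpose_mul] at h7
      rw [Matrix.mul_assoc, h7, ← Matrix.mul_assoc]
    calc EE * (KK i).transpose * (EE.transpose * P⁻¹ * EE)
        = (EE * (KK i).transpose * EE.transpose) * P⁻¹ * EE := by
          rw [← Matrix.mul_assoc, ← Matrix.mul_assoc]
      _ = _ := by rw [h6]
  refine ⟨P, hP, ?_⟩
  have hsum : (∑ i, (X i * (P * (X i).transpose * P⁻¹) - (P * (X i).transpose * P⁻¹) * X i)) * EE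
      = 0 := by
    rw [Matrix.sum_mul]
    have h1 : ∀ i, (X i * (P * (X i).transpose * P⁻¹) - (P * (X i).transpose * P⁻¹) * X i) * EE =
        EE * (KK i * (KK i).transpose - (KK i).transpose * KK i) := by
      intro i
      rw [Matrix.sub_mul, Matrix.mul_sub]
      congr 1
      · rw [Matrix.mul_assoc, ← hkey, ← Matrix.mul_assoc, ← hEE, Matrix.mul_assoc]
      · rw [Matrix.mul_assoc, ← hEE, ← Matrix.mul_assoc, ← hkey, Matrix.mul_assoc]
    simp only [h1]
    rw [← Matrix.mul_sum]
    have : ∑ i, (KK i * (KK i).transpose - (KK i).transpose * KK i) = 0 := hKK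
    rw [this, Matrix.mul_zero]
  calc _ = (∑ i, (X i * (P * (X i).transpose * P⁻¹) - (P * (X i).transpose * P⁻¹) * X i)) *
        (P * P⁻¹) := by rw [hP1, Matrix.mul_one]
    _ = ((∑ i, (X i * (P * (X i).transpose * P⁻¹) - (P * (X i).transpose * P⁻¹) * X i)) * EE) *
        (EE.transpose * P⁻¹) := by
        rw [Matrix.mul_assoc _ EE, ← Matrix.mul_assoc EE]
    _ = 0 := by rw [hsum, Matrix.zero_mul]

end Pool.Agent.Run7.h324.LJ
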