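import Pool.Agent.Run7.h324.LJ.Rho
import Pool.Agent.N696.LI.P_KER

/-!
# MP_e3ee0c_gt, piece RAT2
-/

set_option autoImplicit false

namespace Pool.Agent.Run7.h324.LJ

open Pool.Agent.Run7.h314.LJ Pool.Agent.N696.LI Matrix

theorem main_RAT2 : S_rat2 := by
  classical
  intro m Γ hint v hv
  have hker := Pool.Agent.N696.LI.Ker.ker
  -- finitely many elements of Γ span
  have hfg : (GS Γ).FG := IsNoetherian.noetherian _
  obtain ⟨s, hs, hspan⟩ := (Submodule.fg_span_iff_fg_span_finset_subset _).1 hfg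
  let e := s.equivFin
  let c0 : Fin s.card → Mat m := fun l => (e.symm l : Mat m)
  have hc0 : ∀ l, ∃ γ ∈ Γ, c0 l = (γ : Mat m) := fun l => hs (e.symm l).2
  have hrange : Set.range c0 = (s : Set (Mat m)) := by
    ext M
    constructor
    · rintro ⟨l, rfl⟩
      exact (e.symm l).2
    · intro hM
      exact ⟨e ⟨M, hM⟩, by simp [c0]⟩
  have hGS : GS Γ = Submodule.span ℝ (Set.range c0) := by
    rw [hrange]
    exact hspan
  have hZ : ∀ l, ∃ Z : Matrix (Fin m) (Fin m) ℤ, c0 l = Z.map (fun z : ℤ => (z : ℝ)) := by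
    intro l
    obtain ⟨γ, hγ, h⟩ := hc0 l
    choose z hz using hint γ hγ
    refine ⟨Matrix.of z, ?_⟩
    ext i j
    rw [h, hz]
    rfl
  choose Z hZ using hZ
  let T : Matrix (Fin s.card) (Fin s.card) ℚ := Matrix.of fun j l => (((Z l * Z j).trace : ℤ) : ℚ)
  have hT : ∀ j l, ((T j l : ℚ) : ℝ) = (c0 l * c0 j).trace := by
    intro j l
    rw [hZ l, hZ j]
    simp only [T, Matrix.of_apply, Matrix.trace, Matrix.diag_apply, Matrix.mul_apply,
      Matrix.map_apply]
    push_cast
    rfl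
  let L : (Fin s.card → ℝ) →ₗ[ℝ] Mat m :=
    { toFun := fun c => ∑ l, c l • c0 l
      map_add' := fun x y => by
        simp only [Pi.add_apply, add_smul, Finset.sum_add_distrib]
      map_smul' := fun a x => by
        simp only [Pi.smul_apply, smul_eq_mul, mul_smul, RingHom.id_apply, Finset.smul_sum] }
  have htr : ∀ (c : Fin s.card → ℝ) j, (L c * c0 j).trace =
      ((T.map (fun q : ℚ => (q : ℝ))).mulVec c) j := by
    intro c j
    simp only [L, LinearMap.coe_mk, AddHom.coe_mk, Matrix.mulVec, dotProduct, Matrix.map_apply]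
    rw [Finset.sum_mul, trace_sum]
    apply Finset.sum_congr rfl
    intro l _
    rw [smul_mul_assoc, trace_smul, hT, smul_eq_mul, mul_comm]
  have hJ : ∀ c : Fin s.card → ℝ, (T.map (fun q : ℚ => (q : ℝ))).mulVec c = 0 → JJ Γ (L c) := by
    intro c hc
    rw [JJ_iff]
    constructor
    · rw [hGS]
      have h1 : ∀ l, c0 l ∈ Submodule.span ℝ (Set.range c0) := fun l =>
        Submodule.subset_span (Set.mem_range_self l)
      show ∑ l, c l • c0 l ∈ Submodule.span ℝ (Set.range c0)
      exact Submodule.sum_mem _ fun l _ => Submodule.smul_mem _ _ (h1 l)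
    · intro M' hM'
      rw [hGS] at hM'
      refine Submodule.span_induction (p := fun B _ => (L c * B).trace = 0) ?_ ?_ ?_ ?_ hM'
      · rintro _ ⟨j, rfl⟩
        rw [htr, hc]
        rfl
      · simp
      · intro x y _ _ hx hy
        rw [mul_add, trace_add, hx, hy, add_zero]
      · intro a x _ hx
        rw [mul_smul_comm, trace_smul, hx, smul_zero]
  let JQ : Set (Mat m) := {M | JJ Γ M ∧ ∃ q : Matrix (Fin m) (Fin m) ℚ,
    M = q.map (fun q : ℚ => (q : ℝ))}
  have hJspan : ∀ M, JJ Γ M → M ∈ Submodule.span ℝ JQ := by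
    intro M hM
    have h1 := hM.1
    rw [hGS, Submodule.mem_span_range_iff_exists_fun] at h1
    obtain ⟨c, hc⟩ := h1
    have hLc : L c = M := hc
    have h2 : (T.map (fun q : ℚ => (q : ℝ))).mulVec c = 0 := by
      ext j
      rw [← htr, hLc]
      exact ((JJ_iff Γ M).1 hM).2 (c0 j) (by rw [hGS]; exact Submodule.subset_span ⟨j, rfl⟩)
    have h3 := hker _ _ T c h2
    rw [← hLc]
    have h4 : L c ∈ (Submodule.span ℝ {y : Fin s.card → ℝ | ∃ z : Fin s.card → ℚ,
        T.mulVec z = 0 ∧ y = fun i => (z i : ℝ)}).map L := ⟨c, h3, rfl⟩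
    rw [Submodule.map_span] at h4
    refine Submodule.span_mono ?_ h4
    rintro _ ⟨y, ⟨z, hz, rfl⟩, rfl⟩
    refine ⟨hJ _ ?_, ?_⟩
    · ext j
      have h5 := congrFun hz j
      simp only [Matrix.mulVec, dotProduct, Matrix.map_apply, Pi.zero_apply] at h5 ⊢
      exact_mod_cast h5
    · refine ⟨∑ l, z l • (Z l).map (fun z : ℤ => (z : ℚ)), ?_⟩
      ext a b
      simp only [L, LinearMap.coe_mk, AddHom.coe_mk, Matrix.map_apply]
      rw [Matrix.sum_apply, Matrix.sum_apply]
      push_cast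
      apply Finset.sum_congr rfl
      intro l _
      rw [hZ l]
      simp
  have hfg2 : (Submodule.span ℝ JQ).FG := IsNoetherian.noetherian _
  obtain ⟨t, ht, htspan⟩ := (Submodule.fg_span_iff_fg_span_finset_subset _).1 hfg2
  let e' := t.equivFin
  have hq : ∀ k : Fin t.card, ∃ q : Matrix (Fin m) (Fin m) ℚ,
      (e'.symm k : Mat m) = q.map (fun q : ℚ => (q : ℝ)) := fun k => (ht (e'.symm k).2).2
  choose q hq using hq
  let R : Matrix (Fin (t.card * m)) (Fin m) ℚ := Matrix.of fun p j =>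
    q (finProdFinEquiv.symm p).1 (finProdFinEquiv.symm p).2 j
  have hR : (R.map (fun q : ℚ => (q : ℝ))).mulVec v = 0 := by
    ext p
    have h1 := hv _ (ht (e'.symm (finProdFinEquiv.symm p).1).2).1
    rw [hq] at h1
    exact congrFun h1 (finProdFinEquiv.symm p).2
  have hfin := hker _ _ R v hR
  refine Submodule.span_mono ?_ hfin
  rintro _ ⟨z, hz, rfl⟩
  refine ⟨fun M hM => ?_, z, rfl⟩
  have h1 : M ∈ Submodule.span ℝ (t : Set (Mat m)) := by
    rw [← htspan]
    exact hJspan M hM
  refine Submodule.span_induction (p := fun B _ => B.mulVec (fun i => (z i : ℝ)) = 0)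
    ?_ ?_ ?_ ?_ h1
  · intro B hB
    have h2 : B = (e'.symm (e' ⟨B, hB⟩) : Mat m) := by simp
    rw [h2, hq]
    ext i
    have h3 := congrFun hz (finProdFinEquiv (e' ⟨B, hB⟩, i))
    simp only [Matrix.mulVec, dotProduct, Matrix.map_apply, R, Matrix.of_apply,
      Equiv.symm_apply_apply, Pi.zero_apply] at h3 ⊢
    exact_mod_cast h3
  · simp
  · intro x y _ _ hx hy
    rw [add_mulVec, hx, hy, add_zero]
  · intro a x _ hx
    rw [smul_mulVec, hx, smul_zero]

end Pool.Agent.Run7.h324.LJ
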