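import Pool.Agent.Run7.h324.LJ.Rho
import Pool.Agent.Run7.h324.LJ.Met
import Pool.Agent.N696.LI.P_NIL

/-!
# MP_e3ee0c_gt, pieces SOC and KILL
-/

set_option autoImplicit false

namespace Pool.Agent.Run7.h324.LJ

open Pool.Agent.Run7.h314.LJ Pool.Agent.N696.LI Matrix Topology Filter

theorem nilkill {m : ℕ} (S : Set (Mat m)) (I : Submodule ℝ (Mat m))
    (hIS : ∀ M ∈ I, M ∈ S) (hl : ∀ A ∈ S, ∀ M ∈ I, A * M ∈ I)
    (hnil : ∀ M ∈ I, IsNilpotent M) :
    ∀ (d : ℕ) (V : Submodule ℝ (Fin m → ℝ)), Module.finrank ℝ V = d → V ≠ ⊥ →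
      (∀ A ∈ S, ∀ v ∈ V, A.mulVec v ∈ V) → ∃ v ∈ V, v ≠ 0 ∧ ∀ M ∈ I, M.mulVec v = 0 := by
  intro d
  induction d using Nat.strong_induction_on with
  | _ d ih =>
    intro V hd hV hinv
    obtain ⟨v, hvV, hv0⟩ := (Submodule.ne_bot_iff V).1 hV
    let ev : Mat m →ₗ[ℝ] (Fin m → ℝ) :=
      { toFun := fun M => M.mulVec v
        map_add' := fun x y => add_mulVec _ _ _
        map_smul' := fun c x => smul_mulVec _ _ _ }
    let W := I.map ev
    have hWV : W ≤ V := by
      rintro _ ⟨M, hM, rfl⟩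
      exact hinv M (hIS M hM) v hvV
    by_cases hW : W = ⊥
    · refine ⟨v, hvV, hv0, fun M hM => ?_⟩
      have : ev M ∈ W := ⟨M, hM, rfl⟩
      rw [hW, Submodule.mem_bot] at this
      exact this
    · have hWinv : ∀ A ∈ S, ∀ w ∈ W, A.mulVec w ∈ W := by
        rintro A hA _ ⟨M, hM, rfl⟩
        refine ⟨A * M, hl A hA M hM, ?_⟩
        show (A * M).mulVec v = A.mulVec (M.mulVec v)
        rw [mulVec_mulVec]
      by_cases hlt : Module.finrank ℝ W < d
      · obtain ⟨w, hw, hw0, hwI⟩ := ih _ hlt W rfl hW hWinv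
        exact ⟨w, hWV hw, hw0, hwI⟩
      · have hEq : W = V := by
          apply Submodule.eq_of_le_of_finrank_le hWV
          rw [hd]
          exact not_lt.1 hlt
        have h1 : v ∈ W := by rw [hEq]; exact hvV
        obtain ⟨M, hM, hMv⟩ := h1
        have hMv' : M.mulVec v = v := hMv
        obtain ⟨k, hk⟩ := hnil M hM
        have h2 : ∀ k : ℕ, (M ^ k).mulVec v = v := by
          intro k
          induction k with
          | zero => simp
          | succ k ihk => rw [pow_succ, ← mulVec_mulVec, hMv', ihk]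
        have h3 := h2 k
        rw [hk, zero_mulVec] at h3
        exact absurd h3.symm hv0

theorem main_SOC : S_soc := by
  intro m Γ hm
  let I : Submodule ℝ (Mat m) :=
    { carrier := {M | JJ Γ M}
      add_mem' := fun {a b} ha hb => by
        rw [Set.mem_ofPred_eq, JJ_iff] at ha hb ⊢
        refine ⟨add_mem ha.1 hb.1, fun M' hM' => ?_⟩
        rw [add_mul, trace_add, ha.2 M' hM', hb.2 M' hM', add_zero]
      zero_mem' := by
        rw [Set.mem_ofPred_eq, JJ_iff]
        refine ⟨zero_mem _, fun M' _ => ?_⟩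
        rw [zero_mul, trace_zero]
      smul_mem' := fun c a ha => by
        rw [Set.mem_ofPred_eq, JJ_iff] at ha ⊢
        refine ⟨Submodule.smul_mem _ c ha.1, fun M' hM' => ?_⟩
        rw [smul_mul_assoc, trace_smul, ha.2 M' hM', smul_zero] }
  have hl : ∀ A ∈ (GS Γ : Set (Mat m)), ∀ M ∈ I, A * M ∈ I := by
    intro A hA M hM
    have hM' : JJ Γ M := hM
    rw [JJ_iff] at hM'
    show JJ Γ (A * M)
    rw [JJ_iff]
    refine ⟨mul_GS Γ A M hA hM'.1, fun M' hM'' => ?_⟩
    rw [mul_assoc, trace_mul_comm, mul_assoc]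
    exact hM'.2 _ (mul_GS Γ M' A hM'' hA)
  have hpow : ∀ M ∈ I, ∀ k : ℕ, M ^ (k + 1) ∈ I := by
    intro M hM k
    induction k with
    | zero => simpa using hM
    | succ k ih =>
      rw [pow_succ']
      exact hl M hM.1 _ ih
  have hnil : ∀ M ∈ I, IsNilpotent M := by
    intro M hM
    apply Pool.Agent.N696.LI.Nil.nil
    intro k hk
    obtain ⟨j, rfl⟩ : ∃ j, k = j + 1 := ⟨k - 1, by omega⟩
    have h1 : JJ Γ (M ^ (j + 1)) := hpow M hM j
    have h2 := ((JJ_iff Γ _).1 h1).2 1 (one_GS Γ)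
    rwa [mul_one] at h2
  have hne : (⊤ : Submodule ℝ (Fin m → ℝ)) ≠ ⊥ := by
    intro h
    have h1 : (Pi.single (⟨0, hm⟩ : Fin m) (1 : ℝ) : Fin m → ℝ) ∈
        (⊤ : Submodule ℝ (Fin m → ℝ)) := Submodule.mem_top
    rw [h, Submodule.mem_bot] at h1
    have := congrFun h1 ⟨0, hm⟩
    simp at this
  obtain ⟨v, _, hv0, hv⟩ := nilkill (GS Γ : Set (Mat m)) I (fun M hM => hM.1) hl hnil _ ⊤ rfl hne
    (fun _ _ _ _ => Submodule.mem_top)
  exact ⟨v, hv0, fun M hM => hv M hM⟩

/-- orthogonal projection onto a subspace, as a matrix -/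
theorem exists_proj {h : Type} [Fintype h] [DecidableEq h] (L : Submodule ℝ (h → ℝ)) :
    ∃ Q : Matrix h h ℝ, Q.transpose = Q ∧ Q * Q = Q ∧ (∀ z ∈ L, Q.mulVec z = z) ∧
      ∀ z, Q.mulVec z ∈ L := by
  let b := Module.finBasis ℝ L
  let B : Matrix h (Fin (Module.finrank ℝ L)) ℝ := Matrix.of fun i j => (b j : h → ℝ) i
  have hB : ∀ x, B.mulVec x = ((∑ j, x j • b j : L) : h → ℝ) := by
    intro x
    ext i
    simp only [Matrix.mulVec, dotProduct, B, Matrix.of_apply, Submodule.coe_sum,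
      Submodule.coe_smul, Finset.sum_apply, Pi.smul_apply, smul_eq_mul]
    exact Finset.sum_congr rfl fun j _ => mul_comm _ _
  have hinj : Function.Injective B.mulVec := by
    intro x y hxy
    rw [hB, hB] at hxy
    have h1 := Subtype.ext hxy
    have h2 := b.linearIndependent
    have h3 : ∑ j, (x j - y j) • b j = 0 := by
      have h4 : ∀ j, (x j - y j) • b j = x j • b j - y j • b j := by
        intro j
        apply Subtype.ext
        ext i
        simp only [Submodule.coe_smul, Submodule.coe_sub, Pi.smul_apply, Pi.sub_apply,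
          smul_eq_mul]
        ring
      rw [Finset.sum_congr rfl (fun j _ => h4 j), Finset.sum_sub_distrib, h1, sub_self]
    ext j
    have := Fintype.linearIndependent_iff.1 h2 (fun j => x j - y j) h3 j
    exact sub_eq_zero.1 this
  have hG : (B.transpose * B).PosDef := by
    have := Matrix.PosDef.conjTranspose_mul_self B hinj
    rwa [Matrix.conjTranspose_eq_transpose_of_trivial] at this
  set G := B.transpose * B with hGdef
  have hdet : IsUnit G.det := (Matrix.isUnit_iff_isUnit_det G).1 hG.isUnit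
  have hG2 : G⁻¹ * G = 1 := Matrix.nonsing_inv_mul G hdet
  have hGt : G⁻¹.transpose = G⁻¹ := by
    rw [Matrix.transpose_nonsing_inv]
    congr 1
    rw [hGdef, transpose_mul, transpose_transpose]
  refine ⟨B * G⁻¹ * B.transpose, ?_, ?_, ?_, ?_⟩
  · rw [transpose_mul, transpose_mul, hGt, transpose_transpose, Matrix.mul_assoc]
  · calc B * G⁻¹ * B.transpose * (B * G⁻¹ * B.transpose)
        = B * G⁻¹ * (B.transpose * B) * (G⁻¹ * B.transpose) := by
          simp only [Matrix.mul_assoc]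
      _ = B * (G⁻¹ * G) * (G⁻¹ * B.transpose) := by rw [← hGdef, Matrix.mul_assoc B]
      _ = _ := by rw [hG2, Matrix.mul_one, Matrix.mul_assoc]
  · intro z hz
    have h1 : B.mulVec (b.repr ⟨z, hz⟩) = z := by
      rw [hB, b.sum_repr]
    rw [← h1, mulVec_mulVec, Matrix.mul_assoc, Matrix.mul_assoc, ← hGdef, hG2, Matrix.mul_one]
  · intro z
    rw [← mulVec_mulVec, ← mulVec_mulVec, hB]
    exact Submodule.coe_mem _

theorem lim_mul {m n : ℕ} (X N : Fin n → Mat m) (g : ℕ → (Mat m)ˣ) (φ : Mat m →ₗ[ℝ] Mat m)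
    (hL : Lim X N g φ) (M M' : Mat m) (hM : M ∈ AX X) (hM' : M' ∈ AX X) :
    φ (M * M') = φ M * φ M' := by
  have h1 := hL.lim M hM
  have h2 := hL.lim M' hM'
  have h3 := hL.lim _ (mul_mem hM hM')
  have h4 := h1.mul h2
  refine tendsto_nhds_unique h3 (h4.congr fun t => ?_)
  calc (g t : Mat m) * M * (((g t)⁻¹ : (Mat m)ˣ) : Mat m) *
        ((g t : Mat m) * M' * (((g t)⁻¹ : (Mat m)ˣ) : Mat m))
      = (g t : Mat m) * M * ((((g t)⁻¹ : (Mat m)ˣ) : Mat m) * (g t : Mat m)) * M' *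
        (((g t)⁻¹ : (Mat m)ˣ) : Mat m) := by simp only [mul_assoc]
    _ = _ := by rw [Units.inv_mul, mul_one, mul_assoc (g t : Mat m) M M']

theorem lim_trace {m n : ℕ} (X N : Fin n → Mat m) (g : ℕ → (Mat m)ˣ) (φ : Mat m →ₗ[ℝ] Mat m)
    (hL : Lim X N g φ) (M : Mat m) (hM : M ∈ AX X) : (φ M).trace = M.trace := by
  have h1 := hL.lim M hM
  have h2 : Continuous fun A : Mat m => A.trace := continuous_id.matrix_trace
  have h3 := (h2.tendsto (φ M)).comp h1
  refine tendsto_nhds_unique h3 ?_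
  have h4 : (fun t => (((g t : Mat m) * M * (((g t)⁻¹ : (Mat m)ˣ) : Mat m)) : Mat m).trace) =
      fun _ => M.trace := by
    funext t
    rw [trace_mul_comm, ← mul_assoc, Units.inv_mul, one_mul]
  show Tendsto (fun t => (((g t : Mat m) * M * (((g t)⁻¹ : (Mat m)ˣ) : Mat m)) : Mat m).trace)
    atTop (𝓝 M.trace)
  rw [h4]
  exact tendsto_const_nhds

theorem main_KILL : S_kill := by
  intro m n X N g φ hL v hv M₀ hM₀ hφM₀
  let I : Submodule ℝ (Mat m) := (Subalgebra.toSubmodule (AX X)) ⊓ LinearMap.ker φ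
  have hI : ∀ M, M ∈ I ↔ M ∈ AX X ∧ φ M = 0 := by
    intro M
    rw [Submodule.mem_inf, Subalgebra.mem_toSubmodule, LinearMap.mem_ker]
  have hl : ∀ A ∈ (AX X : Set (Mat m)), ∀ M ∈ I, A * M ∈ I := by
    intro A hA M hM
    rw [hI] at hM ⊢
    refine ⟨mul_mem hA hM.1, ?_⟩
    rw [lim_mul X N g φ hL A M hA hM.1, hM.2, mul_zero]
  have hr : ∀ A ∈ (AX X : Set (Mat m)), ∀ M ∈ I, M * A ∈ I := by
    intro A hA M hM
    rw [hI] at hM ⊢
    refine ⟨mul_mem hM.1 hA, ?_⟩
    rw [lim_mul X N g φ hL M A hM.1 hA, hM.2, zero_mul]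
  have hpow : ∀ M ∈ I, ∀ k : ℕ, M ^ (k + 1) ∈ I := by
    intro M hM k
    induction k with
    | zero => simpa using hM
    | succ k ih =>
      rw [pow_succ']
      exact hl M ((hI M).1 hM).1 _ ih
  have hnil : ∀ M ∈ I, IsNilpotent M := by
    intro M hM
    apply Pool.Agent.N696.LI.Nil.nil
    intro k hk
    obtain ⟨j, rfl⟩ : ∃ j, k = j + 1 := ⟨k - 1, by omega⟩
    have h1 := (hI _).1 (hpow M hM j)
    rw [← lim_trace X N g φ hL _ h1.1, h1.2, trace_zero]
  have hXi : ∀ i, X i ∈ AX X := fun i => Algebra.subset_adjoin ⟨i, rfl⟩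
  obtain ⟨h, hf, hd, K, E, y, hK, hE, hy⟩ := hv
  let L : Submodule ℝ (h → ℝ) :=
    { carrier := {z | ∀ M ∈ I, (M * E).mulVec z = 0}
      add_mem' := fun {a b} ha hb M hM => by
        rw [mulVec_add, ha M hM, hb M hM, add_zero]
      zero_mem' := fun M _ => mulVec_zero _
      smul_mem' := fun c a ha M hM => by
        rw [mulVec_smul, ha M hM, smul_zero] }
  obtain ⟨Q, hQs, hQQ, hQ1, hQ2⟩ := exists_proj L
  have hKL : ∀ i, ∀ z ∈ L, (K i).mulVec z ∈ L := by
    intro i z hz M hM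
    rw [mulVec_mulVec, Matrix.mul_assoc, hE, ← Matrix.mul_assoc]
    exact hz _ (hr _ (hXi i) M hM)
  have hinv : ∀ i, Q * K i * Q = K i * Q := by
    intro i
    apply Matrix.toLin'.injective
    ext1 z
    ext1
    simp only [LinearMap.comp_apply, Matrix.toLin'_apply]
    rw [Matrix.mul_assoc, ← mulVec_mulVec, ← mulVec_mulVec,
      hQ1 _ (hKL i _ (hQ2 _))]
  have hcompl := fun i => harm_compl K hK Q hQs hQQ hinv i
  have hK' : ∀ i, K i * (1 - Q) = (1 - Q) * (K i * (1 - Q)) := by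
    intro i
    have h1 : (1 - Q) * (K i * (1 - Q)) = K i * (1 - Q) - Q * K i * (1 - Q) := by
      rw [sub_mul, one_mul, mul_assoc Q]
    rw [h1, hcompl, sub_zero]
  have hQ0 : Q * (1 - Q) = 0 := by rw [mul_sub, mul_one, hQQ, sub_self]
  -- elements of L in the image of 1 - Q vanish
  have hzero : ∀ z, (1 - Q).mulVec z ∈ L → (1 - Q).mulVec z = 0 := by
    intro z hz
    have h1 := hQ1 _ hz
    rw [mulVec_mulVec, hQ0, zero_mulVec] at h1
    exact h1.symm
  let V0 : Submodule ℝ (Fin m → ℝ) := LinearMap.range (E * (1 - Q)).mulVecLin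
  have hV0 : V0 = ⊥ := by
    by_contra hne
    have hinvX : ∀ i, ∀ w ∈ V0, (X i).mulVec w ∈ V0 := by
      rintro i _ ⟨z, rfl⟩
      refine ⟨(K i * (1 - Q)).mulVec z, ?_⟩
      rw [Matrix.mulVecLin_apply, Matrix.mulVecLin_apply, mulVec_mulVec, mulVec_mulVec,
        Matrix.mul_assoc, ← hK', ← Matrix.mul_assoc, hE, Matrix.mul_assoc]
    have hinvA : ∀ A ∈ (AX X : Set (Mat m)), ∀ w ∈ V0, A.mulVec w ∈ V0 := by
      intro A hA
      refine Algebra.adjoin_induction (p := fun A _ => ∀ w ∈ V0, A.mulVec w ∈ V0)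
        ?_ ?_ ?_ ?_ hA
      · rintro _ ⟨i, rfl⟩
        exact hinvX i
      · intro c w hw
        rw [Algebra.algebraMap_eq_smul_one, smul_mulVec, one_mulVec]
        exact Submodule.smul_mem _ c hw
      · intro a b _ _ ha hb w hw
        rw [add_mulVec]
        exact add_mem (ha w hw) (hb w hw)
      · intro a b _ _ ha hb w hw
        rw [← mulVec_mulVec]
        exact ha _ (hb w hw)
    obtain ⟨w, ⟨z, rfl⟩, hw0, hw⟩ := nilkill (AX X : Set (Mat m)) I
      (fun M hM => ((hI M).1 hM).1) hl hnil _ V0 rfl hne hinvA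
    apply hw0
    rw [Matrix.mulVecLin_apply, ← mulVec_mulVec, hzero z, mulVec_zero]
    intro M hM
    have := hw M hM
    rw [Matrix.mulVecLin_apply, ← mulVec_mulVec, mulVec_mulVec] at this
    exact this
  have hE0 : ∀ z, E.mulVec ((1 - Q).mulVec z) = 0 := by
    intro z
    have h1 : (E * (1 - Q)).mulVecLin z ∈ V0 := ⟨z, rfl⟩
    rw [hV0, Submodule.mem_bot, Matrix.mulVecLin_apply, ← mulVec_mulVec] at h1
    exact h1
  have hall : ∀ z, z ∈ L := by
    intro z
    have h1 : (1 - Q).mulVec z ∈ L := by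
      intro M _
      rw [← mulVec_mulVec, hE0, mulVec_zero]
    have h2 := hzero z h1
    rw [sub_mulVec, one_mulVec, sub_eq_zero] at h2
    rw [h2]
    exact hQ2 z
  have h1 := hall y M₀ ((hI M₀).2 ⟨hM₀, hφM₀⟩)
  rw [← mulVec_mulVec, hy] at h1
  exact h1

end Pool.Agent.Run7.h324.LJ
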