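import Pool.Agent.Run7.h314.LJ.Iface

/-!
# MP_e3ee0c_gt, piece RHO
-/

set_option autoImplicit false

namespace Pool.Agent.Run7.h324.LJ

open Pool.Agent.Run7.h314.LJ Pool.Agent.N696.LI Matrix

variable {m : ℕ}

theorem mem_GS (Γ : Subgroup (Mat m)ˣ) (γ : (Mat m)ˣ) (h : γ ∈ Γ) : (γ : Mat m) ∈ GS Γ :=
  Submodule.subset_span ⟨γ, h, rfl⟩

theorem one_GS (Γ : Subgroup (Mat m)ˣ) : (1 : Mat m) ∈ GS Γ := by
  have := mem_GS Γ 1 Γ.one_mem
  simpa using this

theorem mul_GS (Γ : Subgroup (Mat m)ˣ) (A B : Mat m) (hA : A ∈ GS Γ) (hB : B ∈ GS Γ) :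
    A * B ∈ GS Γ := by
  refine Submodule.span_induction (p := fun A _ => A * B ∈ GS Γ) ?_ ?_ ?_ ?_ hA
  · rintro _ ⟨γ, hγ, rfl⟩
    refine Submodule.span_induction (p := fun B _ => (γ : Mat m) * B ∈ GS Γ) ?_ ?_ ?_ ?_ hB
    · rintro _ ⟨δ, hδ, rfl⟩
      have := mem_GS Γ (γ * δ) (Γ.mul_mem hγ hδ)
      simpa using this
    · simp
    · intro x y _ _ hx hy
      rw [mul_add]
      exact add_mem hx hy
    · intro c x _ hx
      rw [mul_smul_comm]
      exact Submodule.smul_mem _ c hx
  · simp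
  · intro x y _ _ hx hy
    rw [add_mul]
    exact add_mem hx hy
  · intro c x _ hx
    rw [smul_mul_assoc]
    exact Submodule.smul_mem _ c hx

theorem JJ_iff (Γ : Subgroup (Mat m)ˣ) (M : Mat m) :
    JJ Γ M ↔ M ∈ GS Γ ∧ ∀ M' ∈ GS Γ, (M * M').trace = 0 := by
  constructor
  · rintro ⟨h1, h2⟩
    refine ⟨h1, fun M' hM' => ?_⟩
    refine Submodule.span_induction (p := fun B _ => (M * B).trace = 0) ?_ ?_ ?_ ?_ hM'
    · rintro _ ⟨δ, hδ, rfl⟩
      exact h2 δ hδ
    · simp
    · intro x y _ _ hx hy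
      rw [mul_add, trace_add, hx, hy, add_zero]
    · intro c x _ hx
      rw [mul_smul_comm, trace_smul, hx, smul_zero]
  · rintro ⟨h1, h2⟩
    exact ⟨h1, fun γ hγ => h2 _ (mem_GS Γ γ hγ)⟩

/-- the trace form on a subspace, as a map to the dual -/
noncomputable def tf (A : Submodule ℝ (Mat m)) : A →ₗ[ℝ] Module.Dual ℝ A where
  toFun M :=
    { toFun := fun M' => ((M : Mat m) * (M' : Mat m)).trace
      map_add' := fun x y => by
        rw [Submodule.coe_add, mul_add, trace_add]
      map_smul' := fun c x => by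
        rw [Submodule.coe_smul, mul_smul_comm, trace_smul]
        rfl }
  map_add' x y := by
    ext z
    show (((x + y : A) : Mat m) * (z : Mat m)).trace = _
    rw [Submodule.coe_add, add_mul, trace_add]
    rfl
  map_smul' c x := by
    ext z
    show (((c • x : A) : Mat m) * (z : Mat m)).trace = _
    rw [Submodule.coe_smul, smul_mul_assoc, trace_smul]
    rfl

theorem tf_apply (A : Submodule ℝ (Mat m)) (M M' : A) :
    tf A M M' = ((M : Mat m) * (M' : Mat m)).trace := rfl

/-- a functional vanishing on the radical is given by the trace form -/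
theorem exists_rep (A : Submodule ℝ (Mat m)) (l : Module.Dual ℝ A)
    (hl : ∀ M : A, (∀ M' : A, ((M : Mat m) * (M' : Mat m)).trace = 0) → l M = 0) :
    ∃ M : A, ∀ M' : A, ((M : Mat m) * (M' : Mat m)).trace = l M' := by
  have h1 : l ∈ (tf A).dualMap.range := by
    rw [LinearMap.range_dualMap_eq_dualAnnihilator_ker]
    rw [Submodule.mem_dualAnnihilator]
    intro w hw
    apply hl
    intro M'
    have := LinearMap.congr_fun (LinearMap.mem_ker.1 hw) M'
    rw [tf_apply] at this
    simpa using this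
  obtain ⟨g, hg⟩ := h1
  obtain ⟨M, hM⟩ := (Module.evalEquiv ℝ A).surjective g
  refine ⟨M, fun M' => ?_⟩
  rw [← hg, ← hM]
  show _ = (tf A M') M
  rw [tf_apply, trace_mul_comm]

theorem main_RHO : S_rho := by
  intro m Γ φ hφ1 hmul htr hJ v hv
  let A := GS Γ
  have hex : ∀ Y : Mat m, ∃ M : A, ∀ M' : A, ((M : Mat m) * (M' : Mat m)).trace =
      (Y * φ (M' : Mat m)).trace := by
    intro Y
    let l : Module.Dual ℝ A :=
      { toFun := fun M' => (Y * φ (M' : Mat m)).trace
        map_add' := fun x y => by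
          rw [Submodule.coe_add, map_add, mul_add, trace_add]
        map_smul' := fun c x => by
          rw [Submodule.coe_smul, map_smul, mul_smul_comm, trace_smul]
          rfl }
    apply exists_rep A l
    intro M hM
    have h1 : JJ Γ (M : Mat m) := (JJ_iff Γ _).2 ⟨M.2, fun M' hM' => hM ⟨M', hM'⟩⟩
    show (Y * φ (M : Mat m)).trace = 0
    rw [hJ _ h1, mul_zero, trace_zero]
  choose R hR using hex
  let r : Mat m → Fin m → ℝ := fun Y => (R Y : Mat m).mulVec v
  have hr : ∀ (Y M : Mat m), M ∈ A → (∀ M' ∈ A, (M * M').trace = (Y * φ M').trace) →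
      r Y = M.mulVec v := by
    intro Y M hM hM'
    have h1 : JJ Γ ((R Y : Mat m) - M) := by
      rw [JJ_iff]
      refine ⟨sub_mem (R Y).2 hM, fun M' hM'' => ?_⟩
      rw [sub_mul, trace_sub, hM' M' hM'', hR Y ⟨M', hM''⟩, sub_self]
    have h2 := hv _ h1
    rw [sub_mulVec, sub_eq_zero] at h2
    exact h2
  have hradd : ∀ Y Z, r (Y + Z) = r Y + r Z := by
    intro Y Z
    rw [hr (Y + Z) ((R Y : Mat m) + (R Z : Mat m)) (add_mem (R Y).2 (R Z).2), add_mulVec]
    intro M' hM'
    rw [add_mul, trace_add, hR Y ⟨M', hM'⟩, hR Z ⟨M', hM'⟩, add_mul, trace_add]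
  have hrsmul : ∀ (c : ℝ) Y, r (c • Y) = c • r Y := by
    intro c Y
    rw [hr (c • Y) (c • (R Y : Mat m)) (Submodule.smul_mem _ c (R Y).2), smul_mulVec]
    intro M' hM'
    rw [smul_mul_assoc, trace_smul, hR Y ⟨M', hM'⟩, smul_mul_assoc, trace_smul]
  let rl : Mat m →ₗ[ℝ] (Fin m → ℝ) :=
    { toFun := r, map_add' := hradd, map_smul' := fun c Y => hrsmul c Y }
  have hrl : ∀ Y, rl Y = r Y := fun Y => rfl
  have hr1 : rl 1 = v := by
    rw [hrl, hr 1 1 (one_GS Γ), one_mulVec]
    intro M' hM'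
    rw [one_mul, one_mul, htr M' hM']
  have hrg : ∀ γ ∈ Γ, ∀ Y, rl (φ (γ : Mat m) * Y) = (γ : Mat m).mulVec (rl Y) := by
    intro γ hγ Y
    have hγA : (γ : Mat m) ∈ A := mem_GS Γ γ hγ
    rw [hrl, hrl, hr (φ (γ : Mat m) * Y) ((γ : Mat m) * (R Y : Mat m))
      (mul_GS Γ _ _ hγA (R Y).2)]
    · rw [mulVec_mulVec]
    · intro M' hM'
      have h1 := hR Y ⟨M' * (γ : Mat m), mul_GS Γ _ _ hM' hγA⟩
      have h2 : ((R Y : Mat m) * (M' * (γ : Mat m))).trace =
          (Y * φ (M' * (γ : Mat m))).trace := h1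
      rw [hmul M' hM' _ hγA] at h2
      calc ((γ : Mat m) * (R Y : Mat m) * M').trace
          = ((γ : Mat m) * ((R Y : Mat m) * M')).trace := by rw [mul_assoc]
        _ = (((R Y : Mat m) * M') * (γ : Mat m)).trace := trace_mul_comm _ _
        _ = ((R Y : Mat m) * (M' * (γ : Mat m))).trace := by rw [mul_assoc]
        _ = (Y * (φ M' * φ (γ : Mat m))).trace := h2
        _ = ((Y * φ M') * φ (γ : Mat m)).trace := by rw [mul_assoc]
        _ = (φ (γ : Mat m) * (Y * φ M')).trace := trace_mul_comm _ _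
        _ = (φ (γ : Mat m) * Y * φ M').trace := by rw [mul_assoc]
  -- the matrix with column c equal to y
  let cm : Fin m → Fin m → Mat m := fun c j => Matrix.single j c 1
  refine ⟨fun c => Matrix.of fun i j => rl (cm c j) i, ?_, ?_⟩
  · intro c γ hγ
    ext i k
    rw [Matrix.mul_apply, Matrix.mul_apply]
    have h1 : φ (γ : Mat m) * cm c k = ∑ j, (φ (γ : Mat m)) j k • cm c j := by
      ext a b
      rw [Matrix.sum_apply, Matrix.mul_apply]
      simp only [cm, Matrix.smul_apply, Matrix.single_apply, smul_eq_mul]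
      by_cases hb : c = b
      · simp [hb]
      · simp [hb]
    have h2 := congrFun (hrg γ hγ (cm c k)) i
    rw [h1, map_sum, Finset.sum_apply] at h2
    simp only [map_smul, Pi.smul_apply, smul_eq_mul] at h2
    simp only [Matrix.of_apply]
    rw [show (∑ j, rl (cm c j) i * φ (γ : Mat m) j k) =
      ∑ j, φ (γ : Mat m) j k * rl (cm c j) i from
        Finset.sum_congr rfl fun j _ => mul_comm _ _, h2]
    rfl
  · rw [← hr1]
    have h1 : (1 : Mat m) = ∑ c, cm c c := by
      ext a b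
      rw [Matrix.sum_apply]
      simp only [cm, Matrix.single_apply, Matrix.one_apply]
      by_cases hab : a = b
      · subst hab
        simp
      · rw [if_neg hab, Finset.sum_eq_zero]
        intro c _
        rw [if_neg]
        rintro ⟨rfl, rfl⟩
        exact hab rfl
    rw [h1, map_sum]
    apply Finset.sum_congr rfl
    intro c _
    ext i
    rw [Matrix.mulVec_single_one]
    rfl

end Pool.Agent.Run7.h324.LJ
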